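import Mathlib

/-!
# Sums of independent exponential random variables: the probability that one is smaller

`F s A B` is the probability that a sum of independent exponential random variables with the rates
`s u`, `u ∈ A`, is smaller than an independent sum of this kind over `B`, defined by its Fourier
integral.
-/

set_option autoImplicit false

open Finset MeasureTheory Complex Set

namespace Pool.Agent.W5h81.RF

/-- Fourier transform of the exponential distribution with rate `a` -/
noncomputable def ph (a t : ℝ) : ℂ := (1 - I * (t / a : ℝ))⁻¹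

lemma ph_ne (a t : ℝ) : (1 - I * (t / a : ℝ) : ℂ) ≠ 0 := by
  intro h
  have := congrArg Complex.re h
  simp at this

lemma normSq_den (a t : ℝ) : Complex.normSq (1 - I * (t / a : ℝ)) = 1 + (t / a) ^ 2 := by
  rw [Complex.normSq_apply]
  simp
  ring

lemma norm_ph_sq (a t : ℝ) : ‖ph a t‖ ^ 2 = (1 + (t / a) ^ 2)⁻¹ := by
  unfold ph
  rw [norm_inv, inv_pow, ← Complex.normSq_eq_norm_sq, normSq_den]

lemma norm_ph_le (a t : ℝ) : ‖ph a t‖ ≤ 1 := by
  have h : ‖ph a t‖ ^ 2 ≤ 1 := by
    rw [norm_ph_sq]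
    exact inv_le_one_of_one_le₀ (by nlinarith [sq_nonneg (t / a)])
  nlinarith [norm_nonneg (ph a t)]

lemma norm_ph_le' {a t : ℝ} (ha : 0 < a) (ht : 0 < t) : ‖ph a t‖ ≤ a / t := by
  have h : ‖ph a t‖ ^ 2 ≤ (a / t) ^ 2 := by
    rw [norm_ph_sq]
    rw [show (a / t) ^ 2 = ((t / a) ^ 2)⁻¹ by rw [div_pow, div_pow, inv_div]]
    apply inv_anti₀
    · positivity
    · linarith
  exact (sq_le_sq₀ (norm_nonneg _) (by positivity)).1 h

lemma ph_sub_one (a t : ℝ) : ph a t - 1 = I * (t / a : ℝ) * ph a t := by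
  unfold ph
  have := ph_ne a t
  field_simp
  ring

lemma norm_ph_sub_one {a : ℝ} (ha : 0 < a) (t : ℝ) : ‖ph a t - 1‖ ≤ |t| / a := by
  rw [ph_sub_one, norm_mul, norm_mul, Complex.norm_I, one_mul, Complex.norm_real, Real.norm_eq_abs,
    abs_div, abs_of_pos ha]
  calc |t| / a * ‖ph a t‖ ≤ |t| / a * 1 := by
        apply mul_le_mul_of_nonneg_left (norm_ph_le a t) (by positivity)
    _ = |t| / a := mul_one _

lemma ph_im (a t : ℝ) : (ph a t).im = (t / a) / (1 + (t / a) ^ 2) := by
  unfold ph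
  rw [Complex.inv_im, normSq_den]
  simp

variable {ι : Type*} [DecidableEq ι] (s : ι → ℝ)

/-- Fourier transform of the sum over `A` -/
noncomputable def Ph (A : Finset ι) (t : ℝ) : ℂ := ∏ u ∈ A, ph (s u) t

/-- the integrand -/
noncomputable def ig (A B : Finset ι) (t : ℝ) : ℝ :=
  (Ph s B t * (starRingEnd ℂ) (Ph s A t)).im / t

/-- the probability that the sum over `A` is smaller than the sum over `B` -/
noncomputable def F (A B : Finset ι) : ℝ :=
  1 / 2 + (∫ t in Ioi (0 : ℝ), ig s A B t) / Real.pi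

lemma norm_Ph_le (A : Finset ι) (t : ℝ) : ‖Ph s A t‖ ≤ 1 := by
  unfold Ph
  rw [norm_prod]
  exact Finset.prod_le_one (fun _ _ => norm_nonneg _) fun _ _ => norm_ph_le _ _

lemma norm_Ph_le_mem {A : Finset ι} {u : ι} (hu : u ∈ A) (t : ℝ) : ‖Ph s A t‖ ≤ ‖ph (s u) t‖ := by
  unfold Ph
  rw [← Finset.mul_prod_erase A _ hu, norm_mul, norm_prod]
  calc ‖ph (s u) t‖ * ∏ v ∈ A.erase u, ‖ph (s v) t‖ ≤ ‖ph (s u) t‖ * 1 := by
        apply mul_le_mul_of_nonneg_left _ (norm_nonneg _)
        exact Finset.prod_le_one (fun _ _ => norm_nonneg _) fun _ _ => norm_ph_le _ _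
    _ = ‖ph (s u) t‖ := mul_one _

lemma norm_Ph_sub_one (A : Finset ι) (hA : ∀ u ∈ A, 0 < s u) (t : ℝ) :
    ‖Ph s A t - 1‖ ≤ |t| * ∑ u ∈ A, 1 / s u := by
  induction A using Finset.induction_on with
  | empty => simp [Ph]
  | insert u A hu ih =>
    have h1 := ih fun v hv => hA v (Finset.mem_insert_of_mem hv)
    have h2 := norm_ph_sub_one (hA u (Finset.mem_insert_self _ _)) t
    have e : Ph s (insert u A) t - 1 = (ph (s u) t - 1) * Ph s A t + (Ph s A t - 1) := by
      unfold Ph
      rw [Finset.prod_insert hu]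
      ring
    rw [e, Finset.sum_insert hu, mul_add]
    refine (norm_add_le _ _).trans (add_le_add ?_ h1)
    rw [norm_mul]
    calc ‖ph (s u) t - 1‖ * ‖Ph s A t‖ ≤ |t| / s u * 1 := by
          apply mul_le_mul h2 (norm_Ph_le s A t) (norm_nonneg _)
          have := hA u (Finset.mem_insert_self _ _)
          positivity
      _ = |t| * (1 / s u) := by ring

lemma measurable_Ph (A : Finset ι) : Measurable (Ph s A) := by
  unfold Ph
  apply Finset.measurable_fun_prod
  intro u _
  unfold ph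
  fun_prop

lemma measurable_ig (A B : Finset ι) : Measurable (ig s A B) := by
  unfold ig
  have h1 := measurable_Ph s A
  have h2 := measurable_Ph s B
  have h3 : Measurable fun t => (starRingEnd ℂ) (Ph s A t) :=
    (Complex.continuous_conj.measurable).comp h1
  exact (Complex.measurable_im.comp (h2.mul h3)).div measurable_id

lemma abs_ig_le (A B : Finset ι) (hA : ∀ u ∈ A, 0 < s u) (hB : ∀ u ∈ B, 0 < s u) {u : ι}
    (hu : u ∈ A ∪ B) {t : ℝ} (ht : 0 < t) :
    |ig s A B t| ≤ 2 * ((∑ v ∈ A, 1 / s v) + (∑ v ∈ B, 1 / s v) + s u) * (1 + t ^ 2)⁻¹ := by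
  have hsu : 0 < s u := by
    rcases Finset.mem_union.1 hu with h | h
    · exact hA u h
    · exact hB u h
  have hA0 : 0 ≤ ∑ v ∈ A, 1 / s v := Finset.sum_nonneg fun v hv => by have := hA v hv; positivity
  have hB0 : 0 ≤ ∑ v ∈ B, 1 / s v := Finset.sum_nonneg fun v hv => by have := hB v hv; positivity
  have ht2 : 0 < 1 + t ^ 2 := by positivity
  unfold ig
  rw [abs_div, abs_of_pos ht]
  rcases le_or_gt t 1 with h1 | h1
  · have e : (Ph s B t * (starRingEnd ℂ) (Ph s A t)).im =
        (Ph s B t * (starRingEnd ℂ) (Ph s A t) - 1).im := by simp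
    have h2 : ‖Ph s B t * (starRingEnd ℂ) (Ph s A t) - 1‖ ≤
        t * ((∑ v ∈ A, 1 / s v) + (∑ v ∈ B, 1 / s v)) := by
      have e2 : Ph s B t * (starRingEnd ℂ) (Ph s A t) - 1 =
          (Ph s B t - 1) * (starRingEnd ℂ) (Ph s A t) + (starRingEnd ℂ) (Ph s A t - 1) := by
        rw [map_sub, map_one]; ring
      rw [e2]
      refine (norm_add_le _ _).trans ?_
      rw [norm_mul, Complex.norm_conj, Complex.norm_conj]
      have h3 := norm_Ph_sub_one s A hA t
      have h4 := norm_Ph_sub_one s B hB t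
      rw [abs_of_pos ht] at h3 h4
      have h5 := norm_Ph_le s A t
      have h6 : ‖Ph s B t - 1‖ * ‖Ph s A t‖ ≤ (t * ∑ u ∈ B, 1 / s u) * 1 :=
        mul_le_mul h4 h5 (norm_nonneg _) (by positivity)
      linarith
    rw [div_le_iff₀ ht, e]
    refine (Complex.abs_im_le_norm _).trans (h2.trans ?_)
    have h7 : 1 ≤ 2 * (1 + t ^ 2)⁻¹ := by
      rw [← div_eq_mul_inv, le_div_iff₀ ht2]
      nlinarith
    have h8 : ((∑ v ∈ A, 1 / s v) + (∑ v ∈ B, 1 / s v)) * 1 ≤
        ((∑ v ∈ A, 1 / s v) + (∑ v ∈ B, 1 / s v) + s u) * (2 * (1 + t ^ 2)⁻¹) :=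
      mul_le_mul (by linarith) h7 zero_le_one (by positivity)
    nlinarith [h8]
  · have h2 : ‖Ph s B t * (starRingEnd ℂ) (Ph s A t)‖ ≤ s u / t := by
      rw [norm_mul, Complex.norm_conj]
      rcases Finset.mem_union.1 hu with h | h
      · calc ‖Ph s B t‖ * ‖Ph s A t‖ ≤ 1 * (s u / t) :=
              mul_le_mul (norm_Ph_le s B t) ((norm_Ph_le_mem s h t).trans (norm_ph_le' hsu ht))
                (norm_nonneg _) zero_le_one
          _ = s u / t := one_mul _
      · calc ‖Ph s B t‖ * ‖Ph s A t‖ ≤ (s u / t) * 1 :=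
              mul_le_mul ((norm_Ph_le_mem s h t).trans (norm_ph_le' hsu ht)) (norm_Ph_le s A t)
                (norm_nonneg _) (by positivity)
          _ = s u / t := mul_one _
    have h3 : |(Ph s B t * (starRingEnd ℂ) (Ph s A t)).im| / t ≤ s u / t / t := by
      apply div_le_div_of_nonneg_right ((Complex.abs_im_le_norm _).trans h2) ht.le
    refine h3.trans ?_
    have h4 : s u / t / t = s u * (t ^ 2)⁻¹ := by field_simp
    rw [h4]
    have h5 : (t ^ 2)⁻¹ ≤ 2 * (1 + t ^ 2)⁻¹ := by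
      rw [← div_eq_mul_inv, le_div_iff₀ ht2, inv_mul_le_iff₀ (by positivity)]
      nlinarith
    calc s u * (t ^ 2)⁻¹ ≤ ((∑ v ∈ A, 1 / s v) + (∑ v ∈ B, 1 / s v) + s u) * (2 * (1 + t ^ 2)⁻¹) :=
          mul_le_mul (by linarith) h5 (by positivity) (by positivity)
      _ = _ := by ring

lemma integrable_ig (A B : Finset ι) (hA : ∀ u ∈ A, 0 < s u) (hB : ∀ u ∈ B, 0 < s u)
    (h : (A ∪ B).Nonempty) : IntegrableOn (ig s A B) (Ioi 0) := by
  obtain ⟨u, hu⟩ := h
  have h1 : Integrable (fun t : ℝ => (1 + t ^ 2)⁻¹) := integrable_inv_one_add_sq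
  have h2 := (h1.const_mul (2 * ((∑ v ∈ A, 1 / s v) + (∑ v ∈ B, 1 / s v) + s u))).integrableOn
    (s := Ioi (0 : ℝ))
  refine Integrable.mono' h2 (measurable_ig s A B).aestronglyMeasurable ?_
  filter_upwards [ae_restrict_mem measurableSet_Ioi] with t ht
  rw [Real.norm_eq_abs]
  exact abs_ig_le s A B hA hB hu ht

lemma ph_rec {a b : ℝ} (ha : 0 < a) (hb : 0 < b) (t : ℝ) :
    ((a + b : ℝ) : ℂ) * (ph b t * (starRingEnd ℂ) (ph a t)) =
      a * ph b t + b * (starRingEnd ℂ) (ph a t) := by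
  have h1 := ph_ne b t
  have h2 : (1 + I * (t / a : ℝ) : ℂ) ≠ 0 := by
    intro h
    have := congrArg Complex.re h
    simp at this
  have e : (starRingEnd ℂ) (ph a t) = (1 + I * (t / a : ℝ))⁻¹ := by
    unfold ph
    rw [map_inv₀, map_sub, map_one, map_mul, Complex.conj_I, Complex.conj_ofReal]
    ring
  have ha' : (a : ℂ) ≠ 0 := by exact_mod_cast ha.ne'
  have hb' : (b : ℂ) ≠ 0 := by exact_mod_cast hb.ne'
  rw [e]
  unfold ph
  have key : ((a + b : ℝ) : ℂ) = a * (1 + I * (t / a : ℝ)) + b * (1 - I * (t / b : ℝ)) := by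
    push_cast
    field_simp
    ring
  rw [key]
  field_simp

lemma ig_rec {A B : Finset ι} {a b : ι} (ha : a ∈ A) (hb : b ∈ B) (hsa : 0 < s a) (hsb : 0 < s b)
    (t : ℝ) : (s a + s b) * ig s A B t = s a * ig s (A.erase a) B t + s b * ig s A (B.erase b) t := by
  have eA : Ph s A t = ph (s a) t * Ph s (A.erase a) t := by
    unfold Ph; exact (Finset.mul_prod_erase A (fun u => ph (s u) t) ha).symm
  have eB : Ph s B t = ph (s b) t * Ph s (B.erase b) t := by
    unfold Ph; exact (Finset.mul_prod_erase B (fun u => ph (s u) t) hb).symm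
  have key : ((s a + s b : ℝ) : ℂ) * (Ph s B t * (starRingEnd ℂ) (Ph s A t)) =
      (s a : ℝ) * (Ph s B t * (starRingEnd ℂ) (Ph s (A.erase a) t)) +
        (s b : ℝ) * (Ph s (B.erase b) t * (starRingEnd ℂ) (Ph s A t)) := by
    rw [eA, eB, map_mul]
    have := ph_rec hsa hsb t
    calc ((s a + s b : ℝ) : ℂ) * (ph (s b) t * Ph s (B.erase b) t *
          ((starRingEnd ℂ) (ph (s a) t) * (starRingEnd ℂ) (Ph s (A.erase a) t))) =
        (((s a + s b : ℝ) : ℂ) * (ph (s b) t * (starRingEnd ℂ) (ph (s a) t))) *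
          (Ph s (B.erase b) t * (starRingEnd ℂ) (Ph s (A.erase a) t)) := by ring
      _ = _ := by rw [this]; ring
  have h := congrArg Complex.im key
  rw [Complex.im_ofReal_mul, Complex.add_im, Complex.im_ofReal_mul, Complex.im_ofReal_mul] at h
  unfold ig
  rw [← mul_div_assoc, h]
  ring

/-- the recursion of the race of two exponential clocks -/
lemma F_rec {A B : Finset ι} {a b : ι} (ha : a ∈ A) (hb : b ∈ B) (hA : ∀ u ∈ A, 0 < s u)
    (hB : ∀ u ∈ B, 0 < s u) :
    (s a + s b) * F s A B = s a * F s (A.erase a) B + s b * F s A (B.erase b) := by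
  have hA' : ∀ u ∈ A.erase a, 0 < s u := fun u hu => hA u (Finset.mem_of_mem_erase hu)
  have hB' : ∀ u ∈ B.erase b, 0 < s u := fun u hu => hB u (Finset.mem_of_mem_erase hu)
  have i1 := integrable_ig s (A.erase a) B hA' hB ⟨b, Finset.mem_union_right _ hb⟩
  have i2 := integrable_ig s A (B.erase b) hA hB' ⟨a, Finset.mem_union_left _ ha⟩
  have h : (s a + s b) * (∫ t in Ioi (0 : ℝ), ig s A B t) =
      s a * (∫ t in Ioi (0 : ℝ), ig s (A.erase a) B t) +
        s b * ∫ t in Ioi (0 : ℝ), ig s A (B.erase b) t := by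
    rw [← integral_const_mul, ← integral_const_mul, ← integral_const_mul,
      ← integral_add (i1.const_mul _) (i2.const_mul _)]
    congr 1
    funext t
    exact ig_rec s ha hb (hA a ha) (hB b hb) t
  unfold F
  have hpi := Real.pi_pos
  have e : (s a + s b) * (1 / 2 + (∫ t in Ioi (0 : ℝ), ig s A B t) / Real.pi) =
      (s a + s b) / 2 + ((s a + s b) * (∫ t in Ioi (0 : ℝ), ig s A B t)) / Real.pi := by ring
  rw [e, h]
  ring

lemma ig_symm (A B : Finset ι) (t : ℝ) : ig s B A t = - ig s A B t := by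
  unfold ig
  have e : Ph s A t * (starRingEnd ℂ) (Ph s B t) =
      (starRingEnd ℂ) (Ph s B t * (starRingEnd ℂ) (Ph s A t)) := by
    rw [map_mul, Complex.conj_conj]; ring
  rw [e, Complex.conj_im]
  ring

lemma F_symm (A B : Finset ι) : F s B A = 1 - F s A B := by
  unfold F
  have : (∫ t in Ioi (0 : ℝ), ig s B A t) = - ∫ t in Ioi (0 : ℝ), ig s A B t := by
    rw [← integral_neg]
    congr 1
    funext t
    exact ig_symm s A B t
  rw [this]
  ring

/-- partial fractions -/
lemma partial_fractions (B : Finset ι) (hB : ∀ u ∈ B, 0 < s u) (hinj : Set.InjOn s B)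
    (hne : B.Nonempty) : ∃ c : ι → ℝ, (∑ u ∈ B, c u = 1) ∧
      ∀ t, Ph s B t = ∑ u ∈ B, (c u : ℂ) * ph (s u) t := by
  induction B using Finset.induction_on with
  | empty => exact absurd hne (by simp)
  | insert b B hb ih =>
    rcases B.eq_empty_or_nonempty with rfl | hB0
    · exact ⟨fun _ => 1, by simp, fun t => by simp [Ph]⟩
    obtain ⟨c, hc1, hc2⟩ := ih (fun u hu => hB u (Finset.mem_insert_of_mem hu))
      (hinj.mono (by simp)) hB0
    have hne' : ∀ u ∈ B, s b - s u ≠ 0 := by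
      intro u hu h
      have h1 : s b = s u := by linarith
      have h2 := hinj (by simp) (by simp [hu]) h1
      exact hb (h2 ▸ hu)
    refine ⟨fun u => if u = b then - ∑ v ∈ B, c v * (s v / (s b - s v)) else
      c u * (s b / (s b - s u)), ?_, ?_⟩
    · rw [Finset.sum_insert hb, if_pos rfl]
      have : ∑ u ∈ B, (if u = b then - ∑ v ∈ B, c v * (s v / (s b - s v)) else
          c u * (s b / (s b - s u))) = ∑ u ∈ B, c u * (s b / (s b - s u)) := by
        apply Finset.sum_congr rfl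
        intro u hu
        have hub : u ≠ b := fun h => hb (h ▸ hu)
        rw [if_neg hub]
      rw [this, ← hc1, neg_add_eq_sub, ← Finset.sum_sub_distrib]
      apply Finset.sum_congr rfl
      intro u hu
      have := hne' u hu
      field_simp
    · intro t
      have e1 : Ph s (insert b B) t = ph (s b) t * Ph s B t := by
        unfold Ph; exact Finset.prod_insert hb
      rw [e1, hc2 t, Finset.mul_sum, Finset.sum_insert hb]
      simp only [if_true]
      have : ∑ u ∈ B, ((if u = b then - ∑ v ∈ B, c v * (s v / (s b - s v)) else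
          c u * (s b / (s b - s u)) : ℝ) : ℂ) * ph (s u) t =
          ∑ u ∈ B, ((c u * (s b / (s b - s u)) : ℝ) : ℂ) * ph (s u) t := by
        apply Finset.sum_congr rfl
        intro u hu
        have hub : u ≠ b := fun h => hb (h ▸ hu)
        rw [if_neg hub]
      rw [this]
      push_cast
      rw [neg_mul, Finset.sum_mul, neg_add_eq_sub, ← Finset.sum_sub_distrib]
      apply Finset.sum_congr rfl
      intro u hu
      have h0 : (s b : ℂ) - s u ≠ 0 := by exact_mod_cast hne' u hu
      have h1 := ph_ne (s u) t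
      have h2 := ph_ne (s b) t
      have hu0 : (s u : ℂ) ≠ 0 := by
        exact_mod_cast (hB u (Finset.mem_insert_of_mem hu)).ne'
      have hb0 : (s b : ℂ) ≠ 0 := by exact_mod_cast (hB b (Finset.mem_insert_self _ _)).ne'
      have key : ph (s b) t * ph (s u) t * ((s b : ℂ) - s u) =
          s b * ph (s u) t - s u * ph (s b) t := by
        unfold ph
        have e : ((s b : ℂ) - s u) = s b * (1 - I * (t / s b : ℝ)) - s u * (1 - I * (t / s u : ℝ)) := by
          push_cast
          field_simp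
          ring
        rw [e]
        field_simp
      field_simp
      linear_combination (c u : ℂ) * key

lemma integral_ph_im {a : ℝ} (ha : 0 < a) :
    (∫ t in Ioi (0 : ℝ), (ph a t).im / t) = Real.pi / 2 := by
  have h1 : (∫ t in Ioi (0 : ℝ), (ph a t).im / t) =
      ∫ t in Ioi (0 : ℝ), a⁻¹ * (1 + (a⁻¹ * t) ^ 2)⁻¹ := by
    apply setIntegral_congr_fun measurableSet_Ioi
    intro t ht
    have ht' : (0 : ℝ) < t := ht
    simp only
    rw [ph_im]
    field_simp
  rw [h1, integral_const_mul]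
  have h2 := integral_comp_mul_left_Ioi (fun x : ℝ => (1 + x ^ 2)⁻¹) 0 (inv_pos.2 ha)
  rw [h2, mul_zero, smul_eq_mul, inv_inv, ← mul_assoc, inv_mul_cancel₀ ha.ne', one_mul,
    integral_Ioi_inv_one_add_sq]
  simp

lemma integrable_ph_im {a : ℝ} (ha : 0 < a) :
    IntegrableOn (fun t => (ph a t).im / t) (Ioi (0 : ℝ)) := by
  have h := integrable_ig (fun _ : Unit => a) ∅ {()} (by simp) (by simp [ha]) (by simp)
  refine h.congr_fun ?_ measurableSet_Ioi
  intro t _
  simp [ig, Ph]

lemma F_empty (B : Finset ι) (hB : ∀ u ∈ B, 0 < s u) (hinj : Set.InjOn s B) (hne : B.Nonempty) :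
    F s ∅ B = 1 := by
  obtain ⟨c, hc1, hc2⟩ := partial_fractions s B hB hinj hne
  have h : (∫ t in Ioi (0 : ℝ), ig s ∅ B t) = Real.pi / 2 := by
    have e : ∀ t, ig s ∅ B t = ∑ u ∈ B, c u * ((ph (s u) t).im / t) := by
      intro t
      unfold ig
      have e1 : Ph s (∅ : Finset ι) t = 1 := by simp [Ph]
      rw [e1, map_one, mul_one, hc2 t, Complex.im_sum, Finset.sum_div]
      apply Finset.sum_congr rfl
      intro u _
      rw [Complex.im_ofReal_mul, mul_div_assoc]
    have e2 : (∫ t in Ioi (0 : ℝ), ig s ∅ B t) =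
        ∫ t in Ioi (0 : ℝ), ∑ u ∈ B, c u * ((ph (s u) t).im / t) := by
      congr 1
      funext t
      exact e t
    rw [e2, integral_finsetSum]
    · have e3 : ∀ u ∈ B, (∫ t in Ioi (0 : ℝ), c u * ((ph (s u) t).im / t)) =
          c u * (Real.pi / 2) := by
        intro u hu
        rw [integral_const_mul, integral_ph_im (hB u hu)]
      rw [Finset.sum_congr rfl e3, ← Finset.sum_mul, hc1, one_mul]
    · intro u hu
      exact (integrable_ph_im (hB u hu)).const_mul _
  unfold F
  rw [h]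
  have := Real.pi_pos
  field_simp
  norm_num

lemma F_empty' (A : Finset ι) (hA : ∀ u ∈ A, 0 < s u) (hinj : Set.InjOn s A) (hne : A.Nonempty) :
    F s A ∅ = 0 := by
  rw [F_symm, F_empty s A hA hinj hne]
  ring

end Pool.Agent.W5h81.RF
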