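import Mathlib
import Pool.Agent.W5h81.RF.Close2

/-!
# Two chains with the same small sizes, close moments and close power sums
-/

set_option autoImplicit false

open Finset MeasureTheory Complex Set

namespace Pool.Agent.W5h81.RF

variable {ι : Type*} [DecidableEq ι] (sz : ι → ℕ)

/-- power sums of the big sizes -/
noncomputable def hps (A : Finset ι) (e r : ℕ) : ℝ :=
  ∑ u ∈ bg sz A (e + 3), ((2 : ℝ) ^ (e + 2) / sz u) ^ r

lemma Lb_taylor {k : ℕ} {t T : ℝ} (hk : 1 ≤ k) (ht : 0 ≤ t) (hT : 0 < T) (htT : t ≤ T)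
    (hTk : T / k ≤ 1 / 2) {n : ℕ} (hn : 1 ≤ n) :
    ‖Lb k t - ∑ r ∈ Finset.range (n + 1), (I * (t / T : ℝ)) ^ r / (r : ℂ) * (((T / k) ^ r : ℝ) : ℂ)‖ ≤
      t * T * (1 / 2) ^ (n - 1) * 2 * (((k : ℝ) ^ 2)⁻¹) := by
  have hk0 : (0 : ℝ) < k := by exact_mod_cast hk
  set z : ℂ := I * (t / k : ℝ) with hz
  have hzn : ‖z‖ = t / k := by
    rw [hz, norm_mul, Complex.norm_I, one_mul, Complex.norm_real, Real.norm_eq_abs,
      abs_of_nonneg (by positivity)]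
  have htk : t / k ≤ T / k := div_le_div_of_nonneg_right htT hk0.le
  have h1 := norm_log_one_sub_inv_add_logTaylor_neg_le n (z := z) (by rw [hzn]; linarith)
  have e : Lb k t - ∑ r ∈ Finset.range (n + 1),
      (I * (t / T : ℝ)) ^ r / (r : ℂ) * (((T / k) ^ r : ℝ) : ℂ) =
      log (1 - z)⁻¹ + logTaylor (n + 1) (-z) := by
    rw [neg_logTaylor]
    unfold Lb
    rw [← hz, sub_eq_add_neg]
    congr 2
    apply Finset.sum_congr rfl
    intro r _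
    have h2 : z = I * (t / T : ℝ) * ((T / k : ℝ) : ℂ) := by
      rw [hz]
      push_cast
      have hT' : (T : ℂ) ≠ 0 := by exact_mod_cast hT.ne'
      have hk' : (k : ℂ) ≠ 0 := by exact_mod_cast hk0.ne'
      field_simp
    rw [h2, mul_pow]
    push_cast
    ring
  rw [e]
  refine h1.trans ?_
  rw [hzn]
  have h2 : (1 - t / k)⁻¹ ≤ 2 := by
    rw [inv_le_comm₀ (by linarith) (by norm_num)]
    linarith
  have h3 : (t / k) ^ (n + 1) ≤ t * T * (1 / 2) ^ (n - 1) * (((k : ℝ) ^ 2)⁻¹) := by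
    obtain ⟨m, rfl⟩ : ∃ m, n = m + 1 := ⟨n - 1, by omega⟩
    have h4 : (t / k) ^ (m + 1 + 1) = (t / k) * (t / k) * (t / k) ^ m := by ring
    rw [h4, Nat.add_sub_cancel]
    have h5 : (t / k) * (t / k) ≤ t * T * (((k : ℝ) ^ 2)⁻¹) := by
      have : (t / k) * (t / k) = t * t * (((k : ℝ) ^ 2)⁻¹) := by
        field_simp
      rw [this]
      apply mul_le_mul_of_nonneg_right _ (by positivity)
      exact mul_le_mul_of_nonneg_left htT ht
    calc (t / k) * (t / k) * (t / k) ^ m ≤ (t * T * (((k : ℝ) ^ 2)⁻¹)) * (1 / 2) ^ m := by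
          apply mul_le_mul h5 (pow_le_pow_left₀ (by positivity) (by linarith) _) (by positivity)
            (by positivity)
      _ = _ := by ring
  have h4 : 0 ≤ (1 - t / k)⁻¹ := inv_nonneg.2 (by linarith)
  calc (t / k) ^ (n + 1) * (1 - t / k)⁻¹ / ((n : ℝ) + 1) ≤ (t / k) ^ (n + 1) * (1 - t / k)⁻¹ := by
        apply div_le_self (by positivity)
        have : (0 : ℝ) ≤ n := by positivity
        linarith
    _ ≤ (t * T * (1 / 2) ^ (n - 1) * (((k : ℝ) ^ 2)⁻¹)) * 2 :=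
        mul_le_mul h3 h2 h4 (by positivity)
    _ = _ := by ring

omit [DecidableEq ι] in
lemma two_pow_le_of_mem_bg {A : Finset ι} (hA : ∀ u ∈ A, 1 ≤ sz u) {J : ℕ} {u : ι}
    (hu : u ∈ bg sz A J) : 2 ^ J ≤ sz u := by
  simp only [bg, Finset.mem_filter] at hu
  calc 2 ^ J ≤ 2 ^ (Nat.log 2 (sz u)) := Nat.pow_le_pow_right (by norm_num) hu.2
    _ ≤ sz u := Nat.pow_log_le_self 2 (by have := hA u hu.1; omega)

omit [DecidableEq ι] in
lemma hi_expansion {A : Finset ι} (hA : ∀ u ∈ A, 1 ≤ sz u) (hi : Set.InjOn sz A) (e : ℕ) {t : ℝ}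
    (ht : 0 ≤ t) (htT : t ≤ 2 ^ (e + 2)) {n : ℕ} (hn : 1 ≤ n) :
    ‖(∑ u ∈ bg sz A (e + 3), Lb (sz u) t) - ∑ r ∈ Finset.range (n + 1),
      (I * (t / 2 ^ (e + 2) : ℝ)) ^ r / (r : ℂ) * (hps sz A e r : ℂ)‖ ≤ t * (2 * (1 / 2) ^ (n - 1)) := by
  have hT : (0 : ℝ) < 2 ^ (e + 2) := by positivity
  have e1 : (∑ u ∈ bg sz A (e + 3), Lb (sz u) t) - ∑ r ∈ Finset.range (n + 1),
      (I * (t / 2 ^ (e + 2) : ℝ)) ^ r / (r : ℂ) * (hps sz A e r : ℂ) =
      ∑ u ∈ bg sz A (e + 3), (Lb (sz u) t - ∑ r ∈ Finset.range (n + 1),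
        (I * (t / 2 ^ (e + 2) : ℝ)) ^ r / (r : ℂ) * ((((2 : ℝ) ^ (e + 2) / sz u) ^ r : ℝ) : ℂ)) := by
    rw [Finset.sum_sub_distrib, Finset.sum_comm]
    congr 1
    apply Finset.sum_congr rfl
    intro r _
    rw [← Finset.mul_sum]
    congr 1
    unfold hps
    push_cast
    rfl
  rw [e1]
  refine (norm_sum_le _ _).trans ?_
  have h1 : ∀ u ∈ bg sz A (e + 3), ‖Lb (sz u) t - ∑ r ∈ Finset.range (n + 1),
        (I * (t / 2 ^ (e + 2) : ℝ)) ^ r / (r : ℂ) * ((((2 : ℝ) ^ (e + 2) / sz u) ^ r : ℝ) : ℂ)‖ ≤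
        t * 2 ^ (e + 2) * (1 / 2) ^ (n - 1) * 2 * (((sz u : ℝ) ^ 2)⁻¹) := by
    intro u hu
    have h2 : ((2 ^ (e + 3) : ℕ) : ℝ) ≤ sz u := by exact_mod_cast two_pow_le_of_mem_bg sz hA hu
    have h3 : (0 : ℝ) < sz u := lt_of_lt_of_le (by positivity) h2
    have h4 : 1 ≤ sz u := by exact_mod_cast h3
    refine Lb_taylor h4 ht hT htT ?_ hn
    rw [div_le_iff₀ h3]
    push_cast at h2
    rw [pow_succ] at h2
    linarith
  refine (Finset.sum_le_sum h1).trans ?_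
  rw [← Finset.mul_sum]
  have h2 := sum_inv_sq_bg sz hi hA (e + 3)
  calc t * 2 ^ (e + 2) * (1 / 2) ^ (n - 1) * 2 * ∑ u ∈ bg sz A (e + 3), (((sz u : ℝ) ^ 2)⁻¹) ≤
      t * 2 ^ (e + 2) * (1 / 2) ^ (n - 1) * 2 * (2 / 2 ^ (e + 3)) :=
        mul_le_mul_of_nonneg_left h2 (by positivity)
    _ = _ := by
        rw [show e + 3 = e + 2 + 1 by ring, pow_succ 2 (e + 2)]
        field_simp

omit [DecidableEq ι] in
lemma hi_diff {A B : Finset ι} (hA : ∀ u ∈ A, 1 ≤ sz u) (hB : ∀ u ∈ B, 1 ≤ sz u)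
    (hiA : Set.InjOn sz A) (hiB : Set.InjOn sz B) (e : ℕ) {t δ : ℝ} (ht : 0 ≤ t)
    (htT : t ≤ 2 ^ (e + 2)) {n : ℕ} (hn : 1 ≤ n)
    (hp : ∀ r, 1 ≤ r → r ≤ n → |hps sz A e r - hps sz B e r| ≤ δ) :
    ‖(∑ u ∈ bg sz B (e + 3), Lb (sz u) t) - ∑ u ∈ bg sz A (e + 3), Lb (sz u) t‖ ≤
      t * (n * δ) + t * (4 * (1 / 2) ^ (n - 1)) := by
  have hδ0 : 0 ≤ δ := (abs_nonneg _).trans (hp 1 le_rfl hn)
  have hT : (0 : ℝ) < 2 ^ (e + 2) := by positivity
  have hT1 : (1 : ℝ) ≤ 2 ^ (e + 2) := one_le_pow₀ (by norm_num)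
  have hA1 := hi_expansion sz hA hiA e ht htT hn
  have hB1 := hi_expansion sz hB hiB e ht htT hn
  have hS : ‖∑ r ∈ Finset.range (n + 1), (I * (t / 2 ^ (e + 2) : ℝ)) ^ r / (r : ℂ) *
      ((hps sz B e r - hps sz A e r : ℝ) : ℂ)‖ ≤ t * (n * δ) := by
    refine (norm_sum_le _ _).trans ?_
    rw [Finset.sum_range_succ']
    simp only [Nat.cast_zero, div_zero, zero_mul, norm_zero, add_zero]
    have h1 : ∀ r ∈ Finset.range n, ‖(I * (t / 2 ^ (e + 2) : ℝ)) ^ (r + 1) / ((r + 1 : ℕ) : ℂ) *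
      ((hps sz B e (r + 1) - hps sz A e (r + 1) : ℝ) : ℂ)‖ ≤ t * δ := by
      intro r hr
      rw [Finset.mem_range] at hr
      rw [norm_mul, Complex.norm_real, Real.norm_eq_abs, abs_sub_comm, norm_div, norm_pow,
        Complex.norm_natCast, norm_mul, Complex.norm_I, one_mul, Complex.norm_real,
        Real.norm_eq_abs, abs_of_nonneg (by positivity)]
      have h2 := hp (r + 1) (by omega) (by omega)
      have h3 : (t / 2 ^ (e + 2)) ^ (r + 1) / ((r + 1 : ℕ) : ℝ) ≤ t := by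
        have hr1 : (1 : ℝ) ≤ ((r + 1 : ℕ) : ℝ) := by exact_mod_cast (by omega : 1 ≤ r + 1)
        calc (t / 2 ^ (e + 2)) ^ (r + 1) / ((r + 1 : ℕ) : ℝ) ≤ (t / 2 ^ (e + 2)) ^ (r + 1) :=
              div_le_self (by positivity) hr1
          _ = (t / 2 ^ (e + 2)) * (t / 2 ^ (e + 2)) ^ r := by ring
          _ ≤ (t / 2 ^ (e + 2)) * 1 := by
              apply mul_le_mul_of_nonneg_left _ (by positivity)
              apply pow_le_one₀ (by positivity)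
              rw [div_le_one hT]
              exact htT
          _ ≤ t := by
              rw [mul_one]
              exact div_le_self ht hT1
      exact mul_le_mul h3 h2 (abs_nonneg _) ht
    refine (Finset.sum_le_card_nsmul _ _ _ h1).trans ?_
    rw [Finset.card_range, nsmul_eq_mul]
    exact le_of_eq (by ring)
  have e1 : (∑ u ∈ bg sz B (e + 3), Lb (sz u) t) - ∑ u ∈ bg sz A (e + 3), Lb (sz u) t =
      (((∑ u ∈ bg sz B (e + 3), Lb (sz u) t) - ∑ r ∈ Finset.range (n + 1),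
        (I * (t / 2 ^ (e + 2) : ℝ)) ^ r / (r : ℂ) * (hps sz B e r : ℂ)) -
      ((∑ u ∈ bg sz A (e + 3), Lb (sz u) t) - ∑ r ∈ Finset.range (n + 1),
        (I * (t / 2 ^ (e + 2) : ℝ)) ^ r / (r : ℂ) * (hps sz A e r : ℂ))) +
      ∑ r ∈ Finset.range (n + 1), (I * (t / 2 ^ (e + 2) : ℝ)) ^ r / (r : ℂ) *
        ((hps sz B e r - hps sz A e r : ℝ) : ℂ) := by
    have h3 : ∑ r ∈ Finset.range (n + 1), (I * (t / 2 ^ (e + 2) : ℝ)) ^ r / (r : ℂ) *
        ((hps sz B e r - hps sz A e r : ℝ) : ℂ) =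
      ∑ r ∈ Finset.range (n + 1), (I * (t / 2 ^ (e + 2) : ℝ)) ^ r / (r : ℂ) * (hps sz B e r : ℂ) -
      ∑ r ∈ Finset.range (n + 1), (I * (t / 2 ^ (e + 2) : ℝ)) ^ r / (r : ℂ) * (hps sz A e r : ℂ) := by
      rw [← Finset.sum_sub_distrib]
      apply Finset.sum_congr rfl
      intro r _
      push_cast
      ring
    rw [h3]
    ring
  rw [e1]
  refine (norm_add_le _ _).trans ?_
  have h4 := norm_sub_le ((∑ u ∈ bg sz B (e + 3), Lb (sz u) t) - ∑ r ∈ Finset.range (n + 1),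
        (I * (t / 2 ^ (e + 2) : ℝ)) ^ r / (r : ℂ) * (hps sz B e r : ℂ))
      ((∑ u ∈ bg sz A (e + 3), Lb (sz u) t) - ∑ r ∈ Finset.range (n + 1),
        (I * (t / 2 ^ (e + 2) : ℝ)) ^ r / (r : ℂ) * (hps sz A e r : ℂ))
  linarith

omit [DecidableEq ι] in
lemma eta_bound2 {A B : Finset ι} (hA : ∀ u ∈ A, 1 ≤ sz u) (hB : ∀ u ∈ B, 1 ≤ sz u)
    (hiA : Set.InjOn sz A) (hiB : Set.InjOn sz B) (e n : ℕ) (hn : 1 ≤ n) {δ ρ : ℝ} (hδ : δ < 1)
    (hlow : ∀ j < e, (sm sz A j).image sz = (sm sz B j).image sz)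
    (hm : ∀ j, e ≤ j → j < e + 3 → ∀ r ≤ n, |mom sz A j r - mom sz B j r| ≤ δ)
    (hp : ∀ r, 1 ≤ r → r ≤ n → |hps sz A e r - hps sz B e r| ≤ δ)
    (hs : 3 * (2 ^ (n + 1) * δ) + 3 * (4 * (1 / 3) ^ (n + 1)) + n * δ + 4 * (1 / 2) ^ (n - 1) ≤ ρ)
    {t : ℝ} (ht : 0 ≤ t) (htT : t ≤ 2 ^ (e + 2)) :
    ‖(∑ u ∈ B, LL (e + 3) (sz u) t) - ∑ u ∈ A, LL (e + 3) (sz u) t‖ ≤ ρ * t := by
  have hδ0 : 0 ≤ δ := (abs_nonneg _).trans (hp 1 le_rfl hn)
  rw [sum_LL, sum_LL]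
  have e1 : (∑ j ∈ Finset.range (e + 3), ∑ u ∈ sm sz B j, Ls (sz u) t +
      ∑ u ∈ bg sz B (e + 3), Lb (sz u) t) -
      (∑ j ∈ Finset.range (e + 3), ∑ u ∈ sm sz A j, Ls (sz u) t +
      ∑ u ∈ bg sz A (e + 3), Lb (sz u) t) =
      (∑ j ∈ Finset.range (e + 3), ((∑ u ∈ sm sz B j, Ls (sz u) t) - ∑ u ∈ sm sz A j, Ls (sz u) t)) +
      ((∑ u ∈ bg sz B (e + 3), Lb (sz u) t) - ∑ u ∈ bg sz A (e + 3), Lb (sz u) t) := by
    rw [Finset.sum_sub_distrib]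
    ring
  rw [e1]
  have hz : ∀ j < e, (∑ u ∈ sm sz B j, Ls (sz u) t) - ∑ u ∈ sm sz A j, Ls (sz u) t = 0 := by
    intro j hj
    have hi : ∀ {C : Finset ι}, Set.InjOn sz C → Set.InjOn sz (sm sz C j) := by
      intro C hC u hu v hv h
      simp only [sm, Finset.coe_filter, Set.mem_ofPred_eq] at hu hv
      exact hC hu.1 hv.1 h
    have h1 : ∀ {C : Finset ι}, Set.InjOn sz C →
        ∑ u ∈ sm sz C j, Ls (sz u) t = ∑ k ∈ (sm sz C j).image sz, Ls k t := by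
      intro C hC
      rw [Finset.sum_image (hi hC)]
    rw [h1 hiA, h1 hiB, hlow j hj, sub_self]
  have h1 : ‖∑ j ∈ Finset.range (e + 3), ((∑ u ∈ sm sz B j, Ls (sz u) t) -
      ∑ u ∈ sm sz A j, Ls (sz u) t)‖ ≤
      t * (3 * (2 ^ (n + 1) * δ) + 3 * (4 * (1 / 3) ^ (n + 1))) := by
    rw [Finset.sum_range_succ, Finset.sum_range_succ, Finset.sum_range_succ,
      Finset.sum_eq_zero fun j hj => hz j (Finset.mem_range.1 hj), zero_add]
    have key : ∀ j, e ≤ j → j < e + 3 → ‖(∑ u ∈ sm sz B j, Ls (sz u) t) -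
        ∑ u ∈ sm sz A j, Ls (sz u) t‖ ≤ t * (2 ^ (n + 1) * δ + 4 * (1 / 3) ^ (n + 1)) := by
      intro j h1 h2
      refine (sm_diff sz hA hB hiA hiB j ht hδ0 hδ n (hm j h1 h2)).trans ?_
      have h3 : t / 2 ^ j ≤ t := div_le_self ht (one_le_pow₀ (by norm_num))
      have h4 := mul_le_mul_of_nonneg_right h3 (by positivity : 0 ≤ 2 ^ (n + 1) * δ)
      linarith
    have k0 := key e le_rfl (by omega)
    have k1 := key (e + 1) (by omega) (by omega)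
    have k2 := key (e + 2) (by omega) (by omega)
    refine (norm_add_le _ _).trans ?_
    have := norm_add_le ((∑ u ∈ sm sz B e, Ls (sz u) t) - ∑ u ∈ sm sz A e, Ls (sz u) t)
      ((∑ u ∈ sm sz B (e + 1), Ls (sz u) t) - ∑ u ∈ sm sz A (e + 1), Ls (sz u) t)
    linarith
  have h2 := hi_diff sz hA hB hiA hiB e ht htT hn hp
  have h3 := norm_add_le (∑ j ∈ Finset.range (e + 3), ((∑ u ∈ sm sz B j, Ls (sz u) t) -
      ∑ u ∈ sm sz A j, Ls (sz u) t))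
      ((∑ u ∈ bg sz B (e + 3), Lb (sz u) t) - ∑ u ∈ bg sz A (e + 3), Lb (sz u) t)
  have h4 := mul_le_mul_of_nonneg_left hs ht
  linarith

omit [DecidableEq ι] in
/-- decay of the Fourier transform -/
lemma norm_Ph_decay {A : Finset ι} (hA : ∀ u ∈ A, 1 ≤ sz u) (e : ℕ) {t : ℝ}
    (ht : 2 ^ (e + 2) ≤ t) :
    ‖Ph (fun u => (sz u : ℝ)) A t‖ ≤ (1 / 2) ^ (∑ u ∈ A, (e + 1 - Nat.log 2 (sz u))) := by
  have ht0 : (0 : ℝ) < t := lt_of_lt_of_le (by positivity) ht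
  unfold Ph
  rw [norm_prod, ← Finset.prod_pow_eq_pow_sum]
  apply Finset.prod_le_prod (fun _ _ => norm_nonneg _)
  intro u hu
  rcases le_or_gt (e + 1) (Nat.log 2 (sz u)) with h | h
  · rw [Nat.sub_eq_zero_of_le h, pow_zero]
    exact norm_ph_le _ _
  · have h0 : (0 : ℝ) < sz u := by exact_mod_cast hA u hu
    refine (norm_ph_le' h0 ht0).trans ?_
    rw [one_div_pow, div_le_div_iff₀ ht0 (by positivity), one_mul]
    have h2 : sz u < 2 ^ (Nat.log 2 (sz u) + 1) := Nat.lt_pow_succ_log_self (by norm_num) _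
    have h3 : sz u * 2 ^ (e + 1 - Nat.log 2 (sz u)) ≤ 2 ^ (e + 2) := by
      calc sz u * 2 ^ (e + 1 - Nat.log 2 (sz u)) ≤
          2 ^ (Nat.log 2 (sz u) + 1) * 2 ^ (e + 1 - Nat.log 2 (sz u)) :=
            Nat.mul_le_mul_right _ h2.le
        _ = 2 ^ (e + 2) := by
            rw [← pow_add]
            congr 1
            omega
    have h4 : (sz u : ℝ) * 2 ^ (e + 1 - Nat.log 2 (sz u)) ≤ 2 ^ (e + 2) := by exact_mod_cast h3
    linarith

/-- **Closeness lemma, second version.** -/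
theorem close2 {A B : Finset ι} (hA : ∀ u ∈ A, 1 ≤ sz u) (hB : ∀ u ∈ B, 1 ≤ sz u)
    (hiA : Set.InjOn sz A) (hiB : Set.InjOn sz B) {a b : ι} (ha : a ∈ A) (hb : b ∈ B)
    (ha1 : sz a = 1) (hb1 : sz b = 1) (e n : ℕ) (hn : 1 ≤ n) {δ ρ : ℝ} (hδ : δ < 1)
    (hlow : ∀ j < e, (sm sz A j).image sz = (sm sz B j).image sz)
    (hm : ∀ j, e ≤ j → j < e + 3 → ∀ r ≤ n, |mom sz A j r - mom sz B j r| ≤ δ)
    (hp : ∀ r, 1 ≤ r → r ≤ n → |hps sz A e r - hps sz B e r| ≤ δ)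
    (hs : 3 * (2 ^ (n + 1) * δ) + 3 * (4 * (1 / 3) ^ (n + 1)) + n * δ + 4 * (1 / 2) ^ (n - 1) ≤ ρ / 2)
    (hρ : ρ / 2 * 2 ^ (e + 2) ≤ 1)
    (hD : (1 / 2 : ℝ) ^ (∑ u ∈ A, (e + 1 - Nat.log 2 (sz u))) ≤ ρ) :
    |F (fun u => (sz u : ℝ)) A B - 1 / 2| ≤ ρ := by
  have hA' : ∀ u ∈ A, (0 : ℝ) < (fun u => (sz u : ℝ)) u := fun u hu => by
    have := hA u hu
    show (0 : ℝ) < sz u
    exact_mod_cast this
  have hρ0 : 0 < ρ := lt_of_lt_of_le (by positivity) hD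
  have ha1' : (fun u => (sz u : ℝ)) a = 1 := by simp [ha1]
  have hb1' : (fun u => (sz u : ℝ)) b = 1 := by simp [hb1]
  have hpt : ∀ t ∈ Ioi (0 : ℝ), ‖ig (fun u => (sz u : ℝ)) A B t‖ ≤ 2 * ρ * (1 + t ^ 2)⁻¹ := by
    intro t ht
    have ht0 : (0 : ℝ) < t := ht
    rw [Real.norm_eq_abs]
    unfold ig
    rw [abs_div, abs_of_pos ht0, div_le_iff₀ ht0]
    have hpos : (0 : ℝ) < (1 + t ^ 2)⁻¹ := by positivity
    rcases le_total t (2 ^ (e + 2)) with hT | hT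
    · have hη := eta_bound2 sz hA hB hiA hiB e n hn hδ hlow hm hp hs ht0.le hT
      set η := (∑ u ∈ B, LL (e + 3) (sz u) t) - ∑ u ∈ A, LL (e + 3) (sz u) t with hηdef
      have hη1 : ‖η‖ ≤ 1 :=
        hη.trans ((mul_le_mul_of_nonneg_left hT (by linarith)).trans hρ)
      have hAB : Ph (fun u => (sz u : ℝ)) B t = Ph (fun u => (sz u : ℝ)) A t * exp η := by
        rw [Ph_eq_exp sz hA (e + 3) t, Ph_eq_exp sz hB (e + 3) t, ← exp_add, hηdef]
        congr 1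
        ring
      have h1 : (Ph (fun u => (sz u : ℝ)) B t * (starRingEnd ℂ) (Ph (fun u => (sz u : ℝ)) A t)).im =
          Complex.normSq (Ph (fun u => (sz u : ℝ)) A t) * (exp η - 1).im := by
        have h2 : Ph (fun u => (sz u : ℝ)) B t * (starRingEnd ℂ) (Ph (fun u => (sz u : ℝ)) A t) =
            ((Complex.normSq (Ph (fun u => (sz u : ℝ)) A t) : ℝ) : ℂ) * exp η := by
          rw [hAB, Complex.normSq_eq_conj_mul_self]
          ring
        rw [h2, Complex.im_ofReal_mul, Complex.sub_im, Complex.one_im, sub_zero]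
      rw [h1, abs_mul, abs_of_nonneg (Complex.normSq_nonneg _)]
      have h3 : Complex.normSq (Ph (fun u => (sz u : ℝ)) A t) ≤ (1 + t ^ 2)⁻¹ := by
        have h4 := norm_Ph_mul (s := fun u => (sz u : ℝ)) ha ha ha1' ha1' t
        rw [Complex.normSq_eq_norm_sq, sq]
        exact h4
      have h4 : |(exp η - 1).im| ≤ 2 * (ρ * t) := by
        have h5 : 0 ≤ ρ * t := by positivity
        exact (Complex.abs_im_le_norm _).trans ((norm_exp_sub_one_le hη1).trans (by linarith))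
      calc Complex.normSq (Ph (fun u => (sz u : ℝ)) A t) * |(exp η - 1).im| ≤
          (1 + t ^ 2)⁻¹ * (2 * (ρ * t)) := mul_le_mul h3 h4 (abs_nonneg _) hpos.le
        _ = _ := by ring
    · have h1 : |(Ph (fun u => (sz u : ℝ)) B t *
          (starRingEnd ℂ) (Ph (fun u => (sz u : ℝ)) A t)).im| ≤ ρ * (1 / t) := by
        refine (Complex.abs_im_le_norm _).trans ?_
        rw [norm_mul, RCLike.norm_conj, mul_comm]
        apply mul_le_mul ((norm_Ph_decay sz hA e hT).trans hD) _ (norm_nonneg _) hρ0.le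
        refine (norm_Ph_le_mem _ hb t).trans ?_
        rw [hb1, Nat.cast_one]
        exact norm_ph_le' one_pos ht0
      refine h1.trans ?_
      have ht1 : 1 ≤ t := le_trans (one_le_pow₀ (by norm_num)) hT
      rw [mul_one_div, div_le_iff₀ ht0]
      have h5 : (1 : ℝ) ≤ 2 * (1 + t ^ 2)⁻¹ * t * t := by
        rw [show 2 * (1 + t ^ 2)⁻¹ * t * t = (2 * t ^ 2) / (1 + t ^ 2) by field_simp,
          le_div_iff₀ (by positivity)]
        nlinarith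
      calc ρ = ρ * 1 := (mul_one _).symm
        _ ≤ ρ * (2 * (1 + t ^ 2)⁻¹ * t * t) := mul_le_mul_of_nonneg_left h5 hρ0.le
        _ = _ := by ring
  have hint : IntegrableOn (fun t : ℝ => 2 * ρ * (1 + t ^ 2)⁻¹) (Ioi (0 : ℝ)) :=
    (integrable_inv_one_add_sq.const_mul _).integrableOn
  have h1 := norm_integral_le_of_norm_le (f := ig (fun u => (sz u : ℝ)) A B) hint
    (by filter_upwards [ae_restrict_mem measurableSet_Ioi] with t ht using hpt t ht)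
  have h2 : ∫ t in Ioi (0 : ℝ), 2 * ρ * (1 + t ^ 2)⁻¹ = 2 * ρ * (Real.pi / 2) := by
    rw [integral_const_mul, integral_Ioi_inv_one_add_sq]
    simp
  rw [h2, Real.norm_eq_abs] at h1
  unfold F
  rw [add_sub_cancel_left, abs_div, abs_of_pos Real.pi_pos, div_le_iff₀ Real.pi_pos]
  calc |∫ t in Ioi (0 : ℝ), ig (fun u => (sz u : ℝ)) A B t| ≤ 2 * ρ * (Real.pi / 2) := h1
    _ = ρ * Real.pi := by ring

end Pool.Agent.W5h81.RF
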