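import Mathlib
import Pool.Agent.H13R3.WB.Lin
import Pool.Agent.W5h81.RF.Race

/-!
# Linear extensions of a forest as a race

In a finite poset all of whose principal down-sets are chains, the probability that `x` comes before an
incomparable `y` in a random linear extension is the probability that one sum of independent
exponential random variables is smaller than another one.
-/

set_option autoImplicit false

open Finset

namespace Pool.Agent.W5h81.RF

open Pool.Agent.H13R3.WB

/-- principal down-sets are chains -/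
def Forest (P : Type) [PartialOrder P] : Prop := ∀ x a b : P, a ≤ x → b ≤ x → a ≤ b ∨ b ≤ a

section

variable {P : Type} [Fintype P] [PartialOrder P]

open Classical in
/-- number of elements above `u` (including `u`) -/
noncomputable def sz (u : P) : ℕ := (univ.filter (fun v => u ≤ v)).card

lemma one_le_sz (u : P) : 1 ≤ sz u := by
  classical
  unfold sz
  exact Finset.card_pos.2 ⟨u, by simp⟩

lemma sz_lt {u v : P} (h : u < v) : sz v < sz u := by
  classical
  unfold sz
  apply Finset.card_lt_card
  rw [Finset.ssubset_iff_of_subset]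
  · exact ⟨u, by simp, by simpa using fun h' => (lt_of_lt_of_le h h').false⟩
  · intro w hw
    rw [Finset.mem_filter] at hw ⊢
    exact ⟨mem_univ _, h.le.trans hw.2⟩

lemma sz_max {u : P} (h : ∀ v, u ≤ v → v = u) : sz u = 1 := by
  classical
  unfold sz
  rw [Finset.card_eq_one]
  refine ⟨u, ?_⟩
  ext v
  rw [Finset.mem_filter, Finset.mem_singleton]
  exact ⟨fun hv => h v hv.2, fun hv => ⟨mem_univ _, hv ▸ le_rfl⟩⟩

lemma injOn_sz (hP : Forest P) (x : P) : Set.InjOn (sz : P → ℕ) {u | u ≤ x} := by
  intro u hu v hv h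
  rcases hP x u v hu hv with h1 | h1
  · rcases h1.lt_or_eq with h2 | h2
    · exact absurd h (sz_lt h2).ne'
    · exact h2
  · rcases h1.lt_or_eq with h2 | h2
    · exact absurd h (sz_lt h2).ne
    · exact h2.symm

open Classical in
/-- the elements that can be added to the lower set `J` -/
noncomputable def Mn [DecidableEq P] (J : Finset P) : Finset P :=
  univ.filter (fun p => p ∉ J ∧ IsLow (insert p J))

lemma mem_Mn [DecidableEq P] {J : Finset P} {p : P} :
    p ∈ Mn J ↔ p ∉ J ∧ IsLow (insert p J) := by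
  unfold Mn
  simp only [Finset.mem_filter, Finset.mem_univ, true_and]

lemma Mn_below [DecidableEq P] {J : Finset P} {p q : P} (hp : p ∈ Mn J) (hq : q ≤ p) (hqJ : q ∉ J) : q = p := by
  have h := (mem_Mn.1 hp).2 p (Finset.mem_insert_self _ _) q hq
  rcases Finset.mem_insert.1 h with h | h
  · exact h
  · exact absurd h hqJ

lemma mem_Mn_of [DecidableEq P] {J : Finset P} (hJ : IsLow J) {p : P} (hp : p ∉ J) (h : ∀ q, q ≤ p → q ∉ J → q = p) :
    p ∈ Mn J := by
  rw [mem_Mn]
  refine ⟨hp, fun a ha q hq => ?_⟩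
  rw [Finset.mem_insert] at ha ⊢
  rcases ha with rfl | ha
  · by_cases hqJ : q ∈ J
    · exact Or.inr hqJ
    · exact Or.inl (h q hq hqJ)
  · exact Or.inr (hJ a ha q hq)

/-- every element outside of `J` is above exactly one element of `Mn J` -/
lemma exists_Mn [DecidableEq P] {J : Finset P} (hJ : IsLow J) {v : P} (hv : v ∉ J) : ∃ p ∈ Mn J, p ≤ v := by
  classical
  obtain ⟨p, hp⟩ := (univ.filter (fun q => q ≤ v ∧ q ∉ J)).exists_minimal ⟨v, by simp [hv]⟩
  have h1 := hp.1
  simp only [Finset.mem_filter, Finset.mem_univ, true_and] at h1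
  refine ⟨p, mem_Mn_of hJ h1.2 ?_, h1.1⟩
  intro q hq hqJ
  have h2 : q ∈ (univ.filter (fun q => q ≤ v ∧ q ∉ J)) := by
    rw [Finset.mem_filter]
    exact ⟨mem_univ _, hq.trans h1.1, hqJ⟩
  exact le_antisymm hq (hp.2 h2 hq)

lemma sum_sz [DecidableEq P] (hP : Forest P) {J : Finset P} (hJ : IsLow J) :
    ∑ p ∈ Mn J, sz p + J.card = Fintype.card P := by
  classical
  have h1 : (Mn J).biUnion (fun p => univ.filter (fun v => p ≤ v)) = Jᶜ := by
    ext v
    rw [Finset.mem_biUnion, Finset.mem_compl]
    constructor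
    · rintro ⟨p, hp, hv⟩ hvJ
      rw [Finset.mem_filter] at hv
      exact (mem_Mn.1 hp).1 (hJ v hvJ p hv.2)
    · intro hv
      obtain ⟨p, hp, hpv⟩ := exists_Mn hJ hv
      exact ⟨p, hp, by simp [hpv]⟩
  have h2 : ((Mn J).biUnion (fun p => univ.filter (fun v => p ≤ v))).card = ∑ p ∈ Mn J, sz p := by
    rw [Finset.card_biUnion]
    · rfl
    · intro p hp q hq hpq
      rw [Function.onFun, Finset.disjoint_left]
      intro v hv hv'
      rw [Finset.mem_filter] at hv hv'
      rcases hP v p q hv.2 hv'.2 with h | h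
      · exact hpq (Mn_below hq h (mem_Mn.1 hp).1)
      · exact hpq (Mn_below hp h (mem_Mn.1 hq).1).symm
  rw [← h2, h1, Finset.card_compl]
  have := Finset.card_le_univ J
  omega

end

section

variable {P : Type} [Fintype P] [PartialOrder P] [DecidableEq P]

omit [PartialOrder P] in
lemma prod_insert_compl {J : Finset P} {p : P} (hp : p ∉ J) (g : P → ℝ) :
    ∏ u ∈ Jᶜ, g u = g p * ∏ u ∈ (insert p J)ᶜ, g u := by
  rw [← Finset.mul_prod_erase Jᶜ g (Finset.mem_compl.2 hp)]
  congr 1
  apply Finset.prod_congr _ fun _ _ => rfl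
  ext u
  rw [Finset.mem_erase, Finset.mem_compl, Finset.mem_compl, Finset.mem_insert]
  tauto

/-- the counting formula for a family of allowed lower sets, with a weight `G` -/
lemma count_rec (A : Finset P → Prop) [DecidablePred A] (G : Finset P → ℝ)
    (h1 : A univ → G univ = 1)
    (h2 : ∀ J, A J → J ≠ univ → ∑ p ∈ univ.filter (fun p => p ∉ J ∧ A (insert p J)),
      (sz p : ℝ) * G (insert p J) = ((Fintype.card P - J.card : ℕ) : ℝ) * G J) (m : ℕ) :
    ∀ J : Finset P, A J → J.card + m = Fintype.card P →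
      (D A m J : ℝ) * ∏ u ∈ Jᶜ, (sz u : ℝ) = (m.factorial : ℝ) * G J := by
  induction m with
  | zero =>
    intro J hJ hm
    have : J = univ := by
      rw [← Finset.card_eq_iff_eq_univ]
      omega
    subst this
    rw [D, h1 hJ]
    simp
  | succ m ih =>
    intro J hJ hm
    have hne : J ≠ univ := by
      intro h
      rw [h, Finset.card_univ] at hm
      omega
    rw [D]
    push_cast
    rw [Finset.sum_mul]
    have h3 : ∀ p ∈ univ.filter (fun p => p ∉ J ∧ A (insert p J)),
        (D A m (insert p J) : ℝ) * ∏ u ∈ Jᶜ, (sz u : ℝ) =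
          (m.factorial : ℝ) * ((sz p : ℝ) * G (insert p J)) := by
      intro p hp
      rw [Finset.mem_filter] at hp
      have h4 := ih (insert p J) hp.2.2 (by rw [Finset.card_insert_of_notMem hp.2.1]; omega)
      rw [prod_insert_compl hp.2.1]
      linear_combination (sz p : ℝ) * h4
    rw [Finset.sum_congr rfl h3, ← Finset.mul_sum, h2 J hJ hne]
    have h5 : Fintype.card P - J.card = m + 1 := by omega
    rw [h5, Nat.factorial_succ]
    push_cast
    ring

/-- the number of linear extensions of the complement of `J` -/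
lemma count_all (hP : Forest P) [DecidablePred (IsLow (P := P))] (m : ℕ) {J : Finset P} (hJ : IsLow J)
    (hm : J.card + m = Fintype.card P) :
    (D IsLow m J : ℝ) * ∏ u ∈ Jᶜ, (sz u : ℝ) = (m.factorial : ℝ) := by
  have h := count_rec (IsLow (P := P)) (fun _ => 1) (fun _ => rfl) ?_ m J hJ hm
  · rw [h, mul_one]
  · intro J hJ _
    have h1 := sum_sz hP hJ
    have h2 : (univ.filter (fun p => p ∉ J ∧ IsLow (insert p J))) = Mn J := by
      ext p
      rw [Finset.mem_filter, mem_Mn]
      simp
    rw [h2]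
    have h3 : Fintype.card P - J.card = ∑ p ∈ Mn J, sz p := by omega
    rw [h3]
    push_cast
    simp

/-- the noncommon elements below `x` outside of `J` -/
def Ax (J : Finset P) (x y : P) [DecidableRel (α := P) (· ≤ ·)] : Finset P :=
  univ.filter (fun u => u ∉ J ∧ u ≤ x ∧ ¬ u ≤ y)

variable [DecidableRel (α := P) (· ≤ ·)]

lemma mem_Ax {J : Finset P} {x y u : P} : u ∈ Ax J x y ↔ u ∉ J ∧ u ≤ x ∧ ¬ u ≤ y := by
  simp [Ax]

lemma Ax_insert {J : Finset P} {x y p : P} : Ax (insert p J) x y = (Ax J x y).erase p := by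
  ext u
  rw [Finset.mem_erase, mem_Ax, mem_Ax, Finset.mem_insert]
  tauto

lemma injOn_Ax (hP : Forest P) (J : Finset P) (x y : P) :
    Set.InjOn (fun u : P => (sz u : ℝ)) (Ax J x y) := by
  intro u hu v hv h
  rw [Finset.mem_coe, mem_Ax] at hu hv
  have h' : (sz u : ℝ) = (sz v : ℝ) := h
  exact injOn_sz hP x hu.2.1 hv.2.1 (by exact_mod_cast h')

omit [DecidableEq P] [DecidableRel (α := P) (· ≤ ·)] in
lemma sz_pos (u : P) : (0 : ℝ) < sz u := by exact_mod_cast one_le_sz u

omit [DecidableRel (α := P) (· ≤ ·)] in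
lemma Mn_Ax_unique (hP : Forest P) {J : Finset P} {x a b : P} (ha : a ∈ Mn J) (hb : b ∈ Mn J)
    (hax : a ≤ x) (hbx : b ≤ x) : a = b := by
  rcases hP x a b hax hbx with h | h
  · exact Mn_below hb h (mem_Mn.1 ha).1
  · exact (Mn_below ha h (mem_Mn.1 hb).1).symm

/-- if there is no common element outside of `J`, then the first noncommon element can be added -/
lemma exists_Mn_Ax {J : Finset P} (hJ : IsLow J) {x y : P} (hx : x ∉ J)
    (hc : ∀ u, u ∉ J → u ≤ x → ¬ u ≤ y) : ∃ a ∈ Mn J, a ∈ Ax J x y := by
  obtain ⟨a, ha, hax⟩ := exists_Mn hJ hx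
  exact ⟨a, ha, mem_Ax.2 ⟨(mem_Mn.1 ha).1, hax, hc a (mem_Mn.1 ha).1 hax⟩⟩

lemma race_step (hP : Forest P) {J : Finset P} (hJ : IsLow J) {x y : P} (hx : x ∉ J) (hy : y ∉ J) :
    ∑ p ∈ Mn J, (sz p : ℝ) * F (fun u : P => (sz u : ℝ)) ((Ax J x y).erase p) ((Ax J y x).erase p) =
      ((Fintype.card P - J.card : ℕ) : ℝ) * F (fun u : P => (sz u : ℝ)) (Ax J x y) (Ax J y x) := by
  have h1 := sum_sz hP hJ
  have h3 : Fintype.card P - J.card = ∑ p ∈ Mn J, sz p := by omega
  rw [h3]
  push_cast
  rw [Finset.sum_mul, ← sub_eq_zero, ← Finset.sum_sub_distrib]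
  by_cases hc : ∃ u, u ∉ J ∧ u ≤ x ∧ u ≤ y
  · obtain ⟨u, huJ, hux, huy⟩ := hc
    apply Finset.sum_eq_zero
    intro p hp
    have e1 : (Ax J x y).erase p = Ax J x y := by
      apply Finset.erase_eq_of_notMem
      rw [mem_Ax]
      rintro ⟨-, hpx, hpy⟩
      rcases hP x p u hpx hux with h | h
      · exact hpy (h.trans huy)
      · exact hpy ((Mn_below hp h huJ) ▸ huy)
    have e2 : (Ax J y x).erase p = Ax J y x := by
      apply Finset.erase_eq_of_notMem
      rw [mem_Ax]
      rintro ⟨-, hpy, hpx⟩
      rcases hP y p u hpy huy with h | h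
      · exact hpx (h.trans hux)
      · exact hpx ((Mn_below hp h huJ) ▸ hux)
    rw [e1, e2, sub_self]
  · push Not at hc
    obtain ⟨a, ha, haA⟩ := exists_Mn_Ax hJ hx (fun u h h' => hc u h h')
    obtain ⟨b, hb, hbB⟩ := exists_Mn_Ax hJ hy (fun u h h' h'' => hc u h h'' h')
    have haA' := mem_Ax.1 haA
    have hbB' := mem_Ax.1 hbB
    have hab : a ≠ b := by
      rintro rfl
      exact haA'.2.2 hbB'.2.1
    have hpair : ({a, b} : Finset P) ⊆ Mn J := by
      intro p hp
      rw [Finset.mem_insert, Finset.mem_singleton] at hp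
      rcases hp with rfl | rfl
      · exact ha
      · exact hb
    rw [← Finset.sum_subset hpair]
    · rw [Finset.sum_pair hab]
      have e1 : (Ax J y x).erase a = Ax J y x := by
        apply Finset.erase_eq_of_notMem
        rw [mem_Ax]
        rintro ⟨-, h, -⟩
        exact haA'.2.2 h
      have e2 : (Ax J x y).erase b = Ax J x y := by
        apply Finset.erase_eq_of_notMem
        rw [mem_Ax]
        rintro ⟨-, h, -⟩
        exact hbB'.2.2 h
      rw [e1, e2]
      have h := F_rec (fun u : P => (sz u : ℝ)) haA hbB (fun u _ => sz_pos u) (fun u _ => sz_pos u)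
      linarith
    · intro p hp hpn
      rw [Finset.mem_insert, Finset.mem_singleton] at hpn
      push Not at hpn
      have e1 : (Ax J x y).erase p = Ax J x y := by
        apply Finset.erase_eq_of_notMem
        rw [mem_Ax]
        rintro ⟨-, h, -⟩
        exact hpn.1 (Mn_Ax_unique hP hp ha h haA'.2.1)
      have e2 : (Ax J y x).erase p = Ax J y x := by
        apply Finset.erase_eq_of_notMem
        rw [mem_Ax]
        rintro ⟨-, h, -⟩
        exact hpn.2 (Mn_Ax_unique hP hp hb h hbB'.2.1)
      rw [e1, e2, sub_self]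

/-- the allowed initial segments for `x` before `y` -/
def Al (x y : P) (J : Finset P) : Prop := IsLow J ∧ (y ∈ J → x ∈ J)

lemma count_race (hP : Forest P) {x y : P} [DecidablePred (Al x y)] (hxy : ¬ x ≤ y) (hyx : ¬ y ≤ x)
    (m : ℕ) {J : Finset P} (hJ : Al x y J) (hm : J.card + m = Fintype.card P) :
    (D (Al x y) m J : ℝ) * ∏ u ∈ Jᶜ, (sz u : ℝ) = (m.factorial : ℝ) *
      (if x ∈ J then 1 else F (fun u : P => (sz u : ℝ)) (Ax J x y) (Ax J y x)) := by
  refine count_rec (Al x y)
    (fun J => if x ∈ J then 1 else F (fun u : P => (sz u : ℝ)) (Ax J x y) (Ax J y x)) ?_ ?_ m J hJ hm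
  · intro _
    simp
  · intro J hJ _
    by_cases hx : x ∈ J
    · have h2 : (univ.filter (fun p => p ∉ J ∧ Al x y (insert p J))) = Mn J := by
        ext p
        rw [Finset.mem_filter, mem_Mn]
        unfold Al
        simp [hx]
      have h1 := sum_sz hP hJ.1
      have h3 : Fintype.card P - J.card = ∑ p ∈ Mn J, sz p := by omega
      rw [h2, h3]
      simp only [hx, Finset.mem_insert, or_true, if_true, mul_one]
      push_cast
      rfl
    · have hy : y ∉ J := fun h => hx (hJ.2 h)
      have hxny : x ≠ y := fun h => hxy h.le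
      simp only [hx, if_false]
      rw [← race_step hP hJ.1 hx hy]
      have h2 : (univ.filter (fun p => p ∉ J ∧ Al x y (insert p J))) = (Mn J).erase y := by
        ext p
        rw [Finset.mem_filter, Finset.mem_erase, mem_Mn]
        unfold Al
        simp only [Finset.mem_univ, true_and, Finset.mem_insert]
        constructor
        · rintro ⟨h1, h2, h3⟩
          refine ⟨?_, h1, h2⟩
          rintro rfl
          rcases h3 (Or.inl rfl) with h | h
          · exact hxny h
          · exact hx h
        · rintro ⟨h1, h2, h3⟩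
          refine ⟨h2, h3, ?_⟩
          rintro (h | h)
          · exact absurd h.symm h1
          · exact absurd h hy
      rw [h2]
      -- the term of `y` vanishes
      have h4 : ∑ p ∈ Mn J, (sz p : ℝ) *
          F (fun u : P => (sz u : ℝ)) ((Ax J x y).erase p) ((Ax J y x).erase p) =
          ∑ p ∈ (Mn J).erase y, (sz p : ℝ) *
          F (fun u : P => (sz u : ℝ)) ((Ax J x y).erase p) ((Ax J y x).erase p) := by
        symm
        apply Finset.sum_subset (Finset.erase_subset _ _)
        intro p hp hpe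
        have hpy : p = y := by
          by_contra h
          exact hpe (Finset.mem_erase.2 ⟨h, hp⟩)
        subst hpy
        have e1 : (Ax J p x).erase p = ∅ := by
          rw [Finset.eq_empty_iff_forall_notMem]
          intro u hu
          rw [Finset.mem_erase, mem_Ax] at hu
          exact hu.1 (Mn_below hp hu.2.2.1 hu.2.1)
        have e2 : (Ax J x p).erase p = Ax J x p := by
          apply Finset.erase_eq_of_notMem
          rw [mem_Ax]
          rintro ⟨-, -, h⟩
          exact h le_rfl
        rw [e1, e2, F_empty' _ _ (fun u _ => sz_pos u) (injOn_Ax hP J x p)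
          ⟨x, mem_Ax.2 ⟨hx, le_rfl, hxy⟩⟩, mul_zero]
      rw [h4]
      apply Finset.sum_congr rfl
      intro p hp
      rw [Finset.mem_erase] at hp
      congr 1
      by_cases hpx : p = x
      · subst hpx
        rw [if_pos (Finset.mem_insert_self _ _)]
        have e1 : (Ax J p y).erase p = ∅ := by
          rw [Finset.eq_empty_iff_forall_notMem]
          intro u hu
          rw [Finset.mem_erase, mem_Ax] at hu
          exact hu.1 (Mn_below hp.2 hu.2.2.1 hu.2.1)
        have e2 : (Ax J y p).erase p = Ax J y p := by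
          apply Finset.erase_eq_of_notMem
          rw [mem_Ax]
          rintro ⟨-, -, h⟩
          exact h le_rfl
        rw [e1, e2, F_empty _ _ (fun u _ => sz_pos u) (injOn_Ax hP J y p)
          ⟨y, mem_Ax.2 ⟨hy, le_rfl, hyx⟩⟩]
      · have : x ∉ insert p J := by
          rw [Finset.mem_insert]
          push Not
          exact ⟨fun h => hpx h.symm, hx⟩
        rw [if_neg this, Ax_insert, Ax_insert]

/-- **the probability that `x` is before `y`** -/
theorem prob_eq (hP : Forest P) {x y : P} (hxy : ¬ x ≤ y) (hyx : ¬ y ≤ x) :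
    prob P x y = F (fun u : P => (sz u : ℝ)) (Ax ∅ x y) (Ax ∅ y x) := by
  classical
  have h0 : IsLow (∅ : Finset P) := fun p hp => absurd hp (Finset.notMem_empty p)
  have h0' : Al x y (∅ : Finset P) := ⟨h0, fun h => absurd h (Finset.notMem_empty _)⟩
  have hxy' : x ≠ y := fun h => hxy h.le
  have c1 := count_all hP (Fintype.card P) h0 (by simp)
  have c2 := count_race hP hxy hyx (Fintype.card P) h0' (by simp)
  simp only [Finset.notMem_empty, if_false] at c2
  have d1 := card_count (IsLow (P := P)) rfl h0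
  have d2 := card_count (Al x y) rfl h0'
  unfold prob
  have n1 : Nat.card {f : P ≃ Fin (Fintype.card P) // Monotone f} =
      D (IsLow (P := P)) (Fintype.card P) (∅ : Finset P) := by
    rw [← d1, Nat.card_eq_fintype_card, Fintype.card_subtype]
    congr 1
    ext f
    simp only [Finset.mem_filter, Finset.mem_univ, true_and]
    exact mono_iff f
  have n2 : Nat.card {f : P ≃ Fin (Fintype.card P) // Monotone f ∧ f x < f y} =
      D (Al x y) (Fintype.card P) (∅ : Finset P) := by
    rw [← d2, Nat.card_eq_fintype_card, Fintype.card_subtype]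
    congr 1
    ext f
    simp only [Finset.mem_filter, Finset.mem_univ, true_and]
    exact mono_lt_iff f hxy'
  rw [n1, n2]
  have hprod : (0 : ℝ) < ∏ u ∈ (∅ : Finset P)ᶜ, (sz u : ℝ) := Finset.prod_pos fun u _ => sz_pos u
  have hf : (0 : ℝ) < ((Fintype.card P).factorial : ℝ) := by exact_mod_cast Nat.factorial_pos _
  have hD : (0 : ℝ) < (D (IsLow (P := P)) (Fintype.card P) (∅ : Finset P) : ℝ) := by
    by_contra h
    have h1 : (D (IsLow (P := P)) (Fintype.card P) (∅ : Finset P) : ℝ) = 0 := le_antisymm (not_lt.1 h) (by positivity)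
    rw [h1, zero_mul] at c1
    exact hf.ne c1
  rw [div_eq_iff hD.ne']
  rw [← c1] at c2
  have h3 := mul_right_cancel₀ hprod.ne' (show (D (Al x y) (Fintype.card P) (∅ : Finset P) : ℝ) *
    ∏ u ∈ (∅ : Finset P)ᶜ, (sz u : ℝ) =
    (F (fun u : P => (sz u : ℝ)) (Ax ∅ x y) (Ax ∅ y x) * (D (IsLow (P := P)) (Fintype.card P) (∅ : Finset P) : ℝ)) *
      ∏ u ∈ (∅ : Finset P)ᶜ, (sz u : ℝ) by rw [c2]; ring)
  exact h3

end

end Pool.Agent.W5h81.RF
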