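import Mathlib
import Pool.Agent.W5h81.RF.Bounds
import Pool.Agent.W5h81.RF.Close2
import Pool.Agent.W5h81.RF.Forest

/-!
# Balanced pairs in forests with many leaves
-/

set_option autoImplicit false

open Finset

namespace Pool.Agent.W5h81.RF

open Pool.Agent.H13R3.WB

variable {P : Type} [Fintype P] [PartialOrder P] [DecidableEq P] [DecidableRel (α := P) (· ≤ ·)]

/-- principal down-set -/
def Dn (x : P) : Finset P := univ.filter (fun u => u ≤ x)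

omit [DecidableEq P] in
lemma mem_Dn {x u : P} : u ∈ Dn x ↔ u ≤ x := by simp [Dn]

lemma mem_Ax0 {x y u : P} : u ∈ Ax ∅ x y ↔ u ≤ x ∧ ¬ u ≤ y := by simp [mem_Ax]

lemma sum_Dn (x y : P) (g : P → ℝ) :
    ∑ u ∈ Dn x, g u = ∑ u ∈ Ax ∅ x y, g u + ∑ u ∈ univ.filter (fun u => u ≤ x ∧ u ≤ y), g u := by
  rw [← Finset.sum_filter_add_sum_filter_not (Dn x) (fun u => u ≤ y), add_comm]
  congr 1
  · apply Finset.sum_congr _ fun _ _ => rfl
    ext u
    rw [Finset.mem_filter, mem_Dn, mem_Ax0]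
  · apply Finset.sum_congr _ fun _ _ => rfl
    ext u
    rw [Finset.mem_filter, mem_Dn]
    simp

lemma sum_Dn_sub (x y : P) (g : P → ℝ) :
    ∑ u ∈ Dn x, g u - ∑ u ∈ Dn y, g u = ∑ u ∈ Ax ∅ x y, g u - ∑ u ∈ Ax ∅ y x, g u := by
  rw [sum_Dn x y, sum_Dn y x]
  have : univ.filter (fun u => u ≤ x ∧ u ≤ y) = univ.filter (fun u => u ≤ y ∧ u ≤ x) := by
    ext u
    simp [and_comm]
  rw [this]
  ring

lemma mom_sub (x y : P) (j r : ℕ) :
    mom sz (Dn x) j r - mom sz (Dn y) j r = mom sz (Ax ∅ x y) j r - mom sz (Ax ∅ y x) j r := by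
  have h : ∀ A : Finset P, mom sz A j r =
      ∑ u ∈ A, if Nat.log 2 (sz u) = j then (xx (sz u)) ^ r else 0 := by
    intro A
    unfold mom sm
    rw [Finset.sum_filter]
  rw [h, h, h, h]
  exact sum_Dn_sub x y _

lemma bS_sub (x y : P) (J : ℕ) :
    bS sz (Dn x) J - bS sz (Dn y) J = bS sz (Ax ∅ x y) J - bS sz (Ax ∅ y x) J := by
  have h : ∀ A : Finset P, bS sz A J =
      ∑ u ∈ A, if J ≤ Nat.log 2 (sz u) then 1 / (sz u : ℝ) else 0 := by
    intro A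
    unfold bS bg
    rw [Finset.sum_filter]
  rw [h, h, h, h]
  exact sum_Dn_sub x y _

lemma injOn_Ax' (hP : Forest P) (x y : P) : Set.InjOn (sz : P → ℕ) (Ax ∅ x y) := by
  intro u hu v hv h
  rw [Finset.mem_coe, mem_Ax0] at hu hv
  exact injOn_sz hP x hu.1 hv.1 h

/-- **two leaves with close moments** -/
theorem caseA (hP : Forest P) {x y : P} (hx : ∀ v, x ≤ v → v = x) (hy : ∀ v, y ≤ v → v = y)
    (hne : x ≠ y) (J n : ℕ) {δ ε : ℝ} (hδ0 : 0 ≤ δ) (hδ : δ < 1)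
    (hε0 : 0 < ε) (hε1 : ε ≤ 1) (hJ : 4 / ε ^ 2 ≤ 2 ^ J)
    (hm : ∀ j < J, ∀ r ≤ n, |mom sz (Dn x) j r - mom sz (Dn y) j r| ≤ δ)
    (hbS : |bS sz (Dn x) J - bS sz (Dn y) J| ≤ ε)
    (hs : 2 * (2 ^ (n + 1) * δ) + J * (4 * (1 / 3) ^ (n + 1)) ≤ ε) :
    ¬ x ≤ y ∧ ¬ y ≤ x ∧ |prob P x y - 1 / 2| ≤ 3 * ε := by
  have hxy : ¬ x ≤ y := fun h => hne (hx y h).symm
  have hyx : ¬ y ≤ x := fun h => hne (hy x h)
  refine ⟨hxy, hyx, ?_⟩
  rw [prob_eq hP hxy hyx]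
  have ha : x ∈ Ax ∅ x y := mem_Ax0.2 ⟨le_rfl, hxy⟩
  have hb : y ∈ Ax ∅ y x := mem_Ax0.2 ⟨le_rfl, hyx⟩
  refine close sz (fun u _ => one_le_sz u) (fun u _ => one_le_sz u) (injOn_Ax' hP x y)
    (injOn_Ax' hP y x) ha hb (sz_max hx) (sz_max hy) J n hδ0 hδ hε0 hε1 hJ ?_ ?_ hs
  · intro j hj r hr
    rw [← mom_sub]
    exact hm j hj r hr
  · rw [← bS_sub]
    exact hbS

lemma Ax_right_eq (hP : Forest P) {w x y : P} (hwx : w ≤ x) (hwy : ¬ w ≤ y) :
    Ax ∅ y w = Ax ∅ y x := by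
  ext u
  rw [mem_Ax0, mem_Ax0]
  constructor
  · rintro ⟨h1, h2⟩
    refine ⟨h1, fun h3 => ?_⟩
    rcases hP x u w h3 hwx with h | h
    · exact h2 h
    · exact hwy (h.trans h1)
  · rintro ⟨h1, h2⟩
    exact ⟨h1, fun h3 => h2 (h3.trans hwx)⟩

/-- the walk up to `v` crosses `1/2` near an element of big size -/
lemma walk (hP : Forest P) {v x y : P} (hy : ∀ u, y ≤ u → u = y) (hvx : v ≤ x) (hvy : ¬ v ≤ y)
    {K : ℝ} (hK : 2 ≤ K) (hv : K ≤ sz v)
    (hF : F (fun u : P => (sz u : ℝ)) (Ax ∅ v y) (Ax ∅ y x) ≤ 1 / 2) :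
    ∃ w, ¬ w ≤ y ∧ ¬ y ≤ w ∧ |prob P w y - 1 / 2| ≤ 1 / (K + 1) := by
  classical
  set s : P → ℝ := fun u => (sz u : ℝ) with hs
  have hymem : ∀ w, ¬ w ≤ y → ¬ y ≤ w := by
    intro w hwy hyw
    exact hwy (hy w hyw).le
  obtain ⟨w, hw⟩ := (univ.filter (fun w => w ≤ v ∧ ¬ w ≤ y ∧ F s (Ax ∅ w y) (Ax ∅ y x) ≤ 1 / 2)).exists_minimal
    ⟨v, by simp [hvy]; simpa using hF⟩
  have h1 := hw.1
  simp only [Finset.mem_filter, Finset.mem_univ, true_and] at h1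
  obtain ⟨hwv, hwy, hFw⟩ := h1
  have hyw := hymem w hwy
  have hwx := hwv.trans hvx
  have hpw : prob P w y = F s (Ax ∅ w y) (Ax ∅ y x) := by
    rw [prob_eq hP hwy hyw, Ax_right_eq hP hwx hwy]
  have hsw : K ≤ s w := by
    rcases hwv.lt_or_eq with h | h
    · have h' : (sz v : ℝ) ≤ (sz w : ℝ) := by exact_mod_cast (sz_lt h).le
      exact hv.trans h'
    · rw [h]; exact hv
  have hyB : y ∈ Ax ∅ y x := by
    rw [← Ax_right_eq hP hwx hwy]
    exact mem_Ax0.2 ⟨le_rfl, hyw⟩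
  have hy1 : s y = 1 := by simp [hs, sz_max hy]
  have hpos : ∀ u : P, 0 < s u := fun u => sz_pos u
  have hinjB : Set.InjOn s (Ax ∅ y x) := injOn_Ax hP ∅ y x
  have hinjA : Set.InjOn s (Ax ∅ w y) := injOn_Ax hP ∅ w y
  have hwA : w ∈ Ax ∅ w y := mem_Ax0.2 ⟨le_rfl, hwy⟩
  refine ⟨w, hwy, hyw, ?_⟩
  rw [hpw, abs_le]
  constructor
  · rcases ((Ax ∅ w y).erase w).eq_empty_or_nonempty with h0 | h0
    · -- contradiction
      exfalso
      have e : Ax ∅ w y = {w} := by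
        rw [← Finset.insert_erase hwA, h0]
        rfl
      rw [e] at hFw
      have h2 := F_single s (v := w) (Ax ∅ y x) (hpos w) hyB hy1 (fun u _ => hpos u) hinjB
      have h3 : s w / (s w + 1) ≤ 1 / 2 := h2.trans hFw
      rw [div_le_iff₀ (by linarith)] at h3
      linarith
    · obtain ⟨w', hw'⟩ := ((Ax ∅ w y).erase w).exists_maximal h0
      have h2 := hw'.1
      simp only [Finset.mem_erase, mem_Ax0] at h2
      obtain ⟨hw'w, hw'le, hw'y⟩ := h2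
      have e : (Ax ∅ w y).erase w = Ax ∅ w' y := by
        ext u
        rw [Finset.mem_erase, mem_Ax0, mem_Ax0]
        constructor
        · rintro ⟨h3, h4, h5⟩
          refine ⟨?_, h5⟩
          rcases hP w u w' h4 hw'le with h6 | h6
          · exact h6
          · exact hw'.2 (Finset.mem_erase.2 ⟨h3, mem_Ax0.2 ⟨h4, h5⟩⟩) h6
        · rintro ⟨h3, h4⟩
          refine ⟨?_, h3.trans hw'le, h4⟩
          rintro rfl
          exact hw'w (le_antisymm hw'le h3)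
      have h3 : 1 / 2 < F s (Ax ∅ w' y) (Ax ∅ y x) := by
        by_contra h
        push Not at h
        have h4 : w' ∈ univ.filter (fun w => w ≤ v ∧ ¬ w ≤ y ∧ F s (Ax ∅ w y) (Ax ∅ y x) ≤ 1 / 2) := by
          simp only [Finset.mem_filter, Finset.mem_univ, true_and]
          exact ⟨hw'le.trans hwv, hw'y, h⟩
        exact hw'w (le_antisymm hw'le (hw.2 h4 hw'le))
      have h4 := F_step s (v := w) (l := y) (hpos w) hy1 _ ((Ax ∅ w y).erase w) (Ax ∅ y x) rfl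
        (fun u _ => hpos u) (fun u _ => hpos u) (by rw [Finset.insert_erase hwA]; exact hinjA) hinjB
        (Finset.notMem_erase _ _) hyB
      rw [Finset.insert_erase hwA, e] at h4
      have h5 : 1 / (s w + 1) ≤ 1 / (K + 1) := one_div_le_one_div_of_le (by linarith) (by linarith)
      linarith
  · have : 0 ≤ 1 / (K + 1) := by positivity
    linarith

omit [DecidableEq P] [DecidableRel (α := P) (· ≤ ·)] in
lemma sum_sq_le {A : Finset P} (hi : Set.InjOn (sz : P → ℕ) A) :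
    ∑ u ∈ A, (1 / (sz u : ℝ)) ^ 2 ≤ 2 := by
  have h := sum_inv_sq_bg sz hi (fun u _ => one_le_sz u) 0
  have e : bg sz A 0 = A := by
    unfold bg
    apply Finset.filter_true_of_mem
    intro _ _
    exact Nat.zero_le _
  rw [e] at h
  simpa using h

omit [DecidableEq P] [DecidableRel (α := P) (· ≤ ·)] in
lemma sum_small_le {A : Finset P} (hi : Set.InjOn (sz : P → ℕ) A) (J : ℕ) :
    ∑ u ∈ A, 1 / (sz u : ℝ) ≤ bS sz A J + 2 ^ J := by
  rw [← Finset.sum_filter_add_sum_filter_not A (fun u => J ≤ Nat.log 2 (sz u))]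
  unfold bS bg
  apply add_le_add le_rfl
  have h1 : ∀ u ∈ A.filter (fun u => ¬ J ≤ Nat.log 2 (sz u)), 1 / (sz u : ℝ) ≤ 1 := by
    intro u _
    have : (1 : ℝ) ≤ sz u := by exact_mod_cast one_le_sz u
    rw [div_le_one (by linarith)]
    exact this
  refine (Finset.sum_le_card_nsmul _ _ _ h1).trans ?_
  rw [nsmul_eq_mul, mul_one]
  have h2 : (A.filter (fun u => ¬ J ≤ Nat.log 2 (sz u))).card ≤ (Finset.range (2 ^ J)).card := by
    apply Finset.card_le_card_of_injOn (sz : P → ℕ)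
    · intro u hu
      simp only [Finset.coe_filter, Set.mem_ofPred_eq, not_le] at hu
      rw [Finset.coe_range, Set.mem_Iio]
      exact Nat.lt_pow_of_log_lt (by norm_num) hu.2
    · intro u hu v hv h
      simp only [Finset.coe_filter, Set.mem_ofPred_eq, not_le] at hu hv
      exact hi hu.1 hv.1 h
  rw [Finset.card_range] at h2
  exact_mod_cast h2

/-- **two leaves with far away big sums** -/
theorem caseB (hP : Forest P) {x y : P} (hy : ∀ v, y ≤ v → v = y) (J : ℕ) (hJ : 1 ≤ J)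
    (hb : 2 ^ J + 3 ≤ bS sz (Dn x) J - bS sz (Dn y) J) :
    ∃ w, ¬ w ≤ y ∧ ¬ y ≤ w ∧ |prob P w y - 1 / 2| ≤ 1 / (2 ^ J + 1) := by
  classical
  rw [bS_sub] at hb
  have h2J : (2 : ℝ) ≤ 2 ^ J := by
    calc (2 : ℝ) = 2 ^ 1 := by norm_num
      _ ≤ 2 ^ J := pow_le_pow_right₀ (by norm_num) hJ
  have hB0 : 0 ≤ bS sz (Ax ∅ y x) J := Finset.sum_nonneg fun _ _ => by positivity
  have hne : (bg sz (Ax ∅ x y) J).Nonempty := by
    by_contra h
    rw [Finset.not_nonempty_iff_eq_empty] at h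
    have : bS sz (Ax ∅ x y) J = 0 := by
      unfold bS
      rw [h, Finset.sum_empty]
    linarith
  obtain ⟨v, hv⟩ := (bg sz (Ax ∅ x y) J).exists_maximal hne
  have h1 := hv.1
  simp only [bg, Finset.mem_filter, mem_Ax0] at h1
  obtain ⟨⟨hvx, hvy⟩, hvJ⟩ := h1
  have hszle : ∀ u : P, J ≤ Nat.log 2 (sz u) → (2 : ℝ) ^ J ≤ (sz u : ℝ) := by
    intro u hu
    have : 2 ^ J ≤ sz u := by
      calc 2 ^ J ≤ 2 ^ (Nat.log 2 (sz u)) := Nat.pow_le_pow_right (by norm_num) hu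
        _ ≤ sz u := Nat.pow_log_le_self 2 (by have := one_le_sz u; omega)
    exact_mod_cast this
  have e : Ax ∅ v y = bg sz (Ax ∅ x y) J := by
    ext u
    simp only [bg, Finset.mem_filter, mem_Ax0]
    constructor
    · rintro ⟨h2, h3⟩
      refine ⟨⟨h2.trans hvx, h3⟩, ?_⟩
      rcases h2.lt_or_eq with h4 | h4
      · exact hvJ.trans (Nat.log_mono_right (sz_lt h4).le)
      · rw [h4]; exact hvJ
    · rintro ⟨⟨h2, h3⟩, h4⟩
      refine ⟨?_, h3⟩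
      rcases hP x u v h2 hvx with h5 | h5
      · exact h5
      · exact hv.2 (by simp only [bg, Finset.mem_filter, mem_Ax0]; exact ⟨⟨h2, h3⟩, h4⟩) h5
  refine walk hP hy hvx hvy h2J (hszle v hvJ) ?_
  have hμ : 3 ≤ (∑ u ∈ Ax ∅ v y, 1 / (sz u : ℝ)) - ∑ u ∈ Ax ∅ y x, 1 / (sz u : ℝ) := by
    have h3 := sum_small_le (injOn_Ax' hP y x) J
    have h4 : ∑ u ∈ Ax ∅ v y, 1 / (sz u : ℝ) = bS sz (Ax ∅ x y) J := by
      rw [e]
      rfl
    rw [h4]
    linarith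
  set μ := (∑ u ∈ Ax ∅ v y, 1 / (sz u : ℝ)) - ∑ u ∈ Ax ∅ y x, 1 / (sz u : ℝ) with hμdef
  have hvA : v ∈ Ax ∅ v y := mem_Ax0.2 ⟨le_rfl, hvy⟩
  have hch := F_cheb (fun u : P => (sz u : ℝ)) (c := μ) (by linarith) _ (Ax ∅ v y) (Ax ∅ y x) rfl
    (fun u _ => sz_pos u) (fun u _ => sz_pos u) (injOn_Ax hP ∅ v y) (injOn_Ax hP ∅ y x)
    ⟨v, Finset.mem_union_left _ hvA⟩
  have h5 := sum_sq_le (injOn_Ax' hP v y)
  have h6 := sum_sq_le (injOn_Ax' hP y x)
  rw [← hμdef, sub_self] at hch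
  have h7 : F (fun u : P => (sz u : ℝ)) (Ax ∅ v y) (Ax ∅ y x) * μ ^ 2 ≤ 4 := by
    refine hch.trans ?_
    norm_num at h5 h6 ⊢
    linarith
  by_contra h
  push Not at h
  have h8 : (9 : ℝ) ≤ μ ^ 2 := by nlinarith
  nlinarith

end Pool.Agent.W5h81.RF
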